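import Pool.Agent.MP_09973c_nt.H58.SpecA

/-!
The determinant inequality.
-/

set_option autoImplicit false

namespace Pool.Agent.MP_09973c_nt.H76

open Finset Matrix Pool.Agent.MP_09973c_nt.H58
open scoped Nat

section CB
variable {ι κ : Type} [Fintype ι] [DecidableEq ι] [Fintype κ] [DecidableEq κ]

theorem cb0 (X : Matrix ι κ ℂ) (Y : Matrix κ ι ℂ) :
    (X * Y).det = ∑ p : ι → κ, (X.submatrix id p).det * ∏ i, Y (p i) i := by
  simp only [det_apply', mul_apply, prod_univ_sum, Fintype.piFinset_univ, mul_sum, sum_mul,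
    submatrix_apply, id]
  rw [sum_comm]
  refine sum_congr rfl fun p _ => sum_congr rfl fun σ _ => ?_
  rw [prod_mul_distrib, mul_assoc]

theorem cb1 (X : Matrix ι κ ℂ) (Y : Matrix κ ι ℂ) :
    ((Fintype.card ι)! : ℂ) * (X * Y).det =
      ∑ p : ι → κ, (X.submatrix id p).det * (Y.submatrix p id).det := by
  have h : ∀ τ : Equiv.Perm ι, (X * Y).det = ∑ p : ι → κ, (X.submatrix id p).det *
      (((Equiv.Perm.sign τ : ℤ) : ℂ) * ∏ i, Y (p (τ i)) i) := fun τ => by
    rw [cb0]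
    refine (Fintype.sum_equiv (τ.symm.arrowCongr (Equiv.refl κ)) _ _ fun p => ?_).symm
    have : X.submatrix id (p ∘ τ) = (X.submatrix id p).submatrix id τ := rfl
    simp only [Equiv.arrowCongr_apply, Equiv.symm_symm, Equiv.coe_refl, Function.id_comp,
      show ((τ.symm.arrowCongr (Equiv.refl κ)) p) = p ∘ τ from rfl, this, det_permute',
      Function.comp_apply, id]
    ring
  simp only [det_apply' (Y.submatrix _ id), mul_sum, submatrix_apply, id]
  rw [sum_comm, ← sum_congr rfl fun τ _ => h τ]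
  simp [Fintype.card_perm]

theorem det_eq_zero_of_not_inj (X : Matrix ι κ ℂ) {p : ι → κ} (hp : ¬ Function.Injective p) :
    (X.submatrix id p).det = 0 := by
  obtain ⟨i, j, h, hne⟩ := Function.not_injective_iff.1 hp
  exact det_zero_of_column_eq hne fun k => by simp [h]

theorem norm_det_le {A : Matrix κ κ ℂ} {B : ℝ} (h : ∀ i j, ‖A i j‖ ≤ B) :
    ‖A.det‖ ≤ (Fintype.card κ)! * B ^ Fintype.card κ := by
  have := det_le (A := A) (abv := NormedField.toAbsoluteValue ℂ) h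
  rwa [nsmul_eq_mul] at this

theorem exists_sel (lo : ι ↪ κ) (g : (ι → κ) → ℝ) (c : (ι → κ) → ℝ) {C : ℝ} (hC : 0 ≤ C)
    (h0 : ∀ p, 0 ≤ g p) (hz : ∀ p, ¬ Function.Injective p → g p = 0)
    (hc : ∀ p, Function.Injective p → c p ≤ C) :
    ∃ s : ι → κ, Function.Injective s ∧ ∑ p, g p * c p ≤ (Fintype.card κ)! * C * g s := by
  classical
  obtain ⟨s, hs, hm⟩ := exists_max_image (univ.filter fun p : ι → κ => Function.Injective p) g
    ⟨lo, by simpa using lo.injective⟩
  refine ⟨s, (mem_filter.1 hs).2, ?_⟩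
  have hcard : (univ.filter fun p : ι → κ => Function.Injective p).card ≤ (Fintype.card κ)! := by
    rw [← Fintype.card_subtype, Fintype.card_congr (Equiv.subtypeInjectiveEquivEmbedding ι κ),
      Fintype.card_embedding_eq, ← Nat.factorial_mul_descFactorial (Fintype.card_le_of_embedding lo)]
    exact Nat.le_mul_of_pos_left _ (Nat.factorial_pos _)
  calc ∑ p, g p * c p = ∑ p ∈ univ.filter fun p : ι → κ => Function.Injective p, g p * c p :=
        (sum_filter_of_ne fun p _ hne => by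
          by_contra hp
          exact hne (by rw [hz p hp, zero_mul])).symm
    _ ≤ ∑ _p ∈ univ.filter fun p : ι → κ => Function.Injective p, g s * C :=
        sum_le_sum fun p hp => mul_le_mul_of_nonneg (hm p hp) (hc p (mem_filter.1 hp).2) (h0 p) hC
    _ ≤ (Fintype.card κ)! * C * g s := by
        rw [sum_const, nsmul_eq_mul, mul_assoc, mul_comm C]
        exact mul_le_mul_of_nonneg_right (by exact_mod_cast hcard) (mul_nonneg (h0 s) hC)

theorem det_equiv {m : Type} {_ : Fintype m} {_ : DecidableEq m} (e : ι ≃ m) {A : Matrix m m ℂ}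
    {B : Matrix ι ι ℂ} (h : ∀ i j, A (e i) (e j) = B i j) : A.det = B.det := by
  rw [← det_submatrix_equiv_self e]
  congr 1
  ext i j
  exact h i j

theorem minor_le {A : Matrix κ κ ℂ} {Y : Matrix κ ι ℂ} {B : ℝ} (hA : ∀ i j, ‖A i j‖ ≤ B)
    (hY : ∀ i j, ‖(A * Y) i j‖ ≤ B) {s : ι → κ} (hs : Function.Injective s) :
    ‖A.det‖ * ‖(Y.submatrix s id).det‖ ≤ (Fintype.card κ)! * B ^ Fintype.card κ := by
  classical
  let U : Matrix κ κ ℂ := of fun l k =>
    Function.extend s (fun j => Y l j) (fun k => (1 : Matrix κ κ ℂ) l k) k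
  have h1 : ∀ l j, U l (s j) = Y l j := fun l j => hs.extend_apply _ _ _
  have h2 : ∀ l k, k ∉ Set.range s → U l k = (1 : Matrix κ κ ℂ) l k := fun l k hk =>
    Function.extend_apply' _ _ _ hk
  have hU : U.det = (Y.submatrix s id).det := by
    rw [twoBlockTriangular_det' U (fun k => k ∈ Set.range s) fun i hi j hj => by
      rw [h2 i j hj]
      exact one_apply_ne fun e : i = j => hj (e ▸ hi)]
    have e1 : (toSquareBlockProp U fun i => ¬ i ∈ Set.range s) = 1 := by
      ext i j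
      rw [toSquareBlockProp_def, of_apply, h2 _ _ j.2, one_apply, one_apply]
      simp [Subtype.ext_iff]
    rw [e1, det_one, mul_one]
    exact det_equiv (Equiv.ofInjective s hs) fun i j => h1 _ _
  rw [← hU, ← norm_mul, ← det_mul]
  refine norm_det_le fun i k => ?_
  by_cases hk : k ∈ Set.range s
  · obtain ⟨j, rfl⟩ := hk
    simpa only [mul_apply, h1] using hY i j
  · have : (A * U) i k = (A * (1 : Matrix κ κ ℂ)) i k := by simp only [mul_apply, h2 _ _ hk]
    rw [this, mul_one]; exact hA i k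

theorem step1 (lo : ι ↪ κ) (W : Matrix ι κ ℂ) {T : Matrix κ κ ℂ} {B : ℝ} (hB : 1 ≤ B)
    (hT : ∀ i j, ‖T i j‖ ≤ B) (t : ι → κ) : ∃ s : ι → κ, Function.Injective s ∧
    ‖((W * T).submatrix id t).det‖ ≤
      (Fintype.card κ)! * B ^ Fintype.card κ * ‖(W.submatrix id s).det‖ := by
  obtain ⟨s, hs, h⟩ := exists_sel lo (fun p => ‖(W.submatrix id p).det‖)
    (fun p => ‖∏ i, T (p i) (t i)‖) (C := B ^ Fintype.card κ) (by positivity)
    (fun _ => norm_nonneg _) (fun p hp => by rw [det_eq_zero_of_not_inj W hp, norm_zero])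
    fun p _ => by
      rw [norm_prod]
      refine (prod_le_prod (fun _ _ => norm_nonneg _) fun i _ => hT _ _).trans ?_
      rw [prod_const, card_univ]
      exact pow_le_pow_right₀ hB (Fintype.card_le_of_embedding lo)
  refine ⟨s, hs, le_trans ?_ h⟩
  rw [show (W * T).submatrix id t = W * T.submatrix id t from rfl, cb0]
  exact (norm_sum_le _ _).trans (sum_le_sum fun p _ => (norm_mul _ _).le)

theorem step2 (lo : ι ↪ κ) (c : Matrix ι κ ℂ) {A R : Matrix κ κ ℂ} {B ε : ℝ} (hB : 1 ≤ B)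
    (hε : 0 < ε) (hd : ε ≤ ‖A.det‖) (hA : ∀ i j, ‖A i j‖ ≤ B) (hR : ∀ i j, ‖R i j‖ ≤ B)
    (t : ι → κ) : ∃ s : ι → κ, Function.Injective s ∧ ‖((c * R).submatrix id t).det‖ ≤
      (Fintype.card κ)! * ((Fintype.card κ)! * B ^ Fintype.card κ / ε) *
        ‖((c * A).submatrix id s).det‖ := by
  have hu : IsUnit A.det := (norm_pos_iff.1 (hε.trans_le hd)).isUnit
  have hY : A * (A⁻¹ * R.submatrix id t) = R.submatrix id t := by
    rw [← Matrix.mul_assoc, mul_nonsing_inv _ hu, Matrix.one_mul]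
  obtain ⟨s, hs, h⟩ := exists_sel lo (fun p => ‖((c * A).submatrix id p).det‖)
    (fun p => ‖((A⁻¹ * R.submatrix id t).submatrix p id).det‖)
    (C := (Fintype.card κ)! * B ^ Fintype.card κ / ε) (by positivity)
    (fun _ => norm_nonneg _) (fun p hp => by rw [det_eq_zero_of_not_inj _ hp, norm_zero])
    fun p hp => by
      rw [le_div_iff₀ hε, mul_comm]
      exact (mul_le_mul_of_nonneg_right hd (norm_nonneg _)).trans
        (minor_le hA (fun i j => by rw [hY]; exact hR _ _) hp)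
  refine ⟨s, hs, le_trans ?_ h⟩
  have h1 := cb1 (c * A) (A⁻¹ * R.submatrix id t)
  rw [Matrix.mul_assoc, hY] at h1
  calc ‖((c * R).submatrix id t).det‖
      ≤ ‖((Fintype.card ι)! : ℂ) * (c * R.submatrix id t).det‖ := by
        rw [norm_mul, Complex.norm_natCast]
        exact le_mul_of_one_le_left (norm_nonneg _) (by exact_mod_cast Nat.factorial_pos _)
    _ ≤ _ := by
        rw [h1]
        exact (norm_sum_le _ _).trans (sum_le_sum fun p _ => (norm_mul _ _).le)

end CB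

theorem fact_cube (n : ℕ) : ((n ! : ℝ)) ^ 3 ≤ ((2 * n)! : ℝ) ^ 2 := by
  have h1 : n ! * n ! ≤ (2 * n)! := by
    rw [two_mul]
    exact Nat.le_of_dvd (Nat.factorial_pos _) (Nat.factorial_mul_factorial_dvd_factorial_add n n)
  have h2 : n ! ≤ (2 * n)! := Nat.factorial_le (by omega)
  have := Nat.mul_le_mul h1 h2
  exact_mod_cast (by nlinarith : n ! ^ 3 ≤ (2 * n)! ^ 2)

theorem detJ : DetJStmt := by
  intro P κ ι τ _ _ _ S Λ f J ε hΛ hε hd hJ hf hC w hw
  classical
  set N := Fintype.card κ with hN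
  let A : Matrix κ κ ℂ := of fun k l => S.e k (Λ l)
  let R : Matrix κ κ ℂ := of fun k r => S.e k (S.R r)
  obtain ⟨L, hL, hLB⟩ := S.lag
  have hLR : of L * R = 1 := by
    ext r r'
    rw [one_apply, ← hL r r']; rfl
  have hRT : R * (of L * A) = A := by
    rw [← Matrix.mul_assoc, mul_eq_one_comm.1 hLR, Matrix.one_mul]
  choose c hc using hf
  have hfac : ∀ (t : τ) (y : κ → P), (∀ l, S.Ok (y l)) → ∀ s : ι → κ,
      ‖((of (c t) * (of fun k l => S.e k (y l) : Matrix κ κ ℂ)).submatrix id s).det‖ =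
        (∏ j, ‖f t (y (s j))‖) ^ J *
          ‖(((of fun k l => S.e k (y l) : Matrix κ κ ℂ).submatrix S.lo id).submatrix id s).det‖ := by
    intro t y hy s
    have : (of (c t) * (of fun k l => S.e k (y l) : Matrix κ κ ℂ)).submatrix id s =
        of fun i j => f t (y (s j)) ^ J *
          ((of fun k l => S.e k (y l) : Matrix κ κ ℂ).submatrix S.lo id).submatrix id s i j := by
      ext i j
      exact (hc t i _ (hy _)).symm
    rw [this, det_mul_row, norm_mul, norm_prod, ← prod_pow]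
    simp only [norm_pow]
  let Q : (ι → κ) → ℝ := fun s => ‖((A.submatrix S.lo id).submatrix id s).det‖
  obtain ⟨s₁, -, hmax⟩ := exists_max_image univ (fun s => Q s * (∏ j, w (s j)) ^ J) ⟨S.lo, mem_univ _⟩
  have hwp : ∀ s : ι → κ, 0 < ∏ j, w (s j) := fun s => prod_pos fun j _ => hw _
  have hQ : 0 < Q s₁ := by
    have hu : IsUnit A.det := (norm_pos_iff.1 (hε.trans_le hd)).isUnit
    have h1 : A.submatrix S.lo id * A⁻¹.submatrix id S.lo = 1 := by
      rw [show A.submatrix S.lo id * A⁻¹.submatrix id S.lo = (A * A⁻¹).submatrix S.lo S.lo from rfl,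
        mul_nonsing_inv _ hu, submatrix_one_embedding]
    have h2 := cb0 (A.submatrix S.lo id) (A⁻¹.submatrix id S.lo)
    rw [h1, det_one] at h2
    obtain ⟨p, -, hp⟩ := exists_ne_zero_of_sum_ne_zero (h2 ▸ one_ne_zero)
    exact (mul_pos_iff_of_pos_right (pow_pos (hwp s₁) J)).1 ((mul_pos
      (norm_pos_iff.2 (left_ne_zero_of_mul hp)) (pow_pos (hwp p) J)).trans_le (hmax p (mem_univ _)))
  have hs₁ : Function.Injective s₁ := by
    by_contra h
    exact hQ.ne' (by simp only [Q, det_eq_zero_of_not_inj _ h, norm_zero])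
  refine ⟨univ.map ⟨s₁, hs₁⟩, by simp, fun t => ?_⟩
  obtain ⟨s, hs, h1⟩ := step1 S.lo (of (c t) * R) S.hB (T := of L * A)
    (fun r l => hLB r _ (hΛ l)) s₁
  rw [Matrix.mul_assoc, hRT, hfac t Λ hΛ, hfac t S.R S.okR] at h1
  refine ⟨univ.map ⟨s, hs⟩, by simp, fun t' => ?_⟩
  obtain ⟨s₂, hs₂, h2⟩ := step2 S.lo (of (c t')) S.hB hε hd (A := A) (R := R)
    (fun k l => S.be k _ (hΛ l)) (fun k r => S.be k _ (S.okR r)) s
  rw [hfac t' Λ hΛ, hfac t' S.R S.okR] at h2
  refine ⟨univ.map ⟨s₂, hs₂⟩, by simp, ?_⟩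
  simp only [prod_map, Function.Embedding.coeFn_mk, prod_div_distrib]
  have h3 := hmax s₂ (mem_univ _)
  have w1 := hwp s₁
  have w2 := hwp s₂
  have hB := S.hB
  have hK : (N ! * S.B ^ N) * (N ! * (N ! * S.B ^ N / ε)) ≤ Real.exp N ^ J := by
    rw [← Real.exp_nat_mul, show (N ! * S.B ^ N) * (N ! * (N ! * S.B ^ N / ε)) =
      (N ! : ℝ) ^ 3 * (S.B ^ N) ^ 2 / ε by ring, div_le_iff₀ hε, mul_comm _ ε]
    refine le_trans ?_ hC
    rw [mul_pow]
    exact mul_le_mul_of_nonneg_right (fact_cube N) (by positivity)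
  change _ * Q s₁ ≤ _ at h1
  change _ ≤ _ * (_ * Q s₂) at h2
  generalize Q s₁ = q₁ at *
  have hq₂ : 0 ≤ Q s₂ := norm_nonneg _
  generalize Q s₂ = q₂ at *
  have a1 : 0 ≤ ∏ j, ‖f t (Λ (s₁ j))‖ := by positivity
  have a2 : 0 ≤ ∏ j, ‖f t' (Λ (s₂ j))‖ := by positivity
  have b1 : 0 ≤ ∏ j, ‖f t (S.R (s j))‖ := by positivity
  have b2 : 0 ≤ ∏ j, ‖f t' (S.R (s j))‖ := by positivity
  generalize ∏ j, ‖f t (Λ (s₁ j))‖ = x₁ at *
  generalize ∏ j, ‖f t' (Λ (s₂ j))‖ = x₂ at *
  generalize ∏ j, ‖f t (S.R (s j))‖ = y₁ at *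
  generalize ∏ j, ‖f t' (S.R (s j))‖ = y₂ at *
  generalize ∏ j, w (s₁ j) = u₁ at *
  generalize ∏ j, w (s₂ j) = u₂ at *
  have hp0 : 0 ≤ ‖(((of fun k l => S.e k (S.R l) : Matrix κ κ ℂ).submatrix S.lo id).submatrix
    id s).det‖ := norm_nonneg _
  generalize ‖(((of fun k l => S.e k (S.R l) : Matrix κ κ ℂ).submatrix S.lo id).submatrix
    id s).det‖ = p at *
  have c1 : 0 ≤ (N ! : ℝ) * S.B ^ N := by positivity
  have c2 : 0 ≤ (N ! : ℝ) * (N ! * S.B ^ N / ε) := by positivity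
  generalize (N ! : ℝ) * (N ! * S.B ^ N / ε) = C₂ at *
  generalize (N ! : ℝ) * S.B ^ N = C₁ at *
  refine le_of_pow_le_pow_left₀ hJ.ne' (by positivity) ?_
  simp only [mul_pow, div_pow]
  have u1 : 0 < u₁ ^ J := pow_pos w1 J
  have u2 : 0 < u₂ ^ J := pow_pos w2 J
  rcases hp0.eq_or_lt with rfl | hp
  · have : x₁ ^ J = 0 := le_antisymm (nonpos_of_mul_nonpos_left (by simpa using h1) hQ)
      (by positivity)
    rw [this, zero_div, zero_mul]; positivity
  · rw [div_mul_eq_mul_div, ← mul_div_assoc, div_le_div_iff₀ u1 u2]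
    refine le_of_mul_le_mul_right ?_ (mul_pos hQ hp)
    calc x₁ ^ J * y₂ ^ J * u₂ ^ J * (q₁ * p) = (x₁ ^ J * q₁) * (y₂ ^ J * p) * u₂ ^ J := by ring
      _ ≤ (C₁ * (y₁ ^ J * p)) * (C₂ * (x₂ ^ J * q₂)) * u₂ ^ J := by gcongr
      _ = (C₁ * C₂) * (y₁ ^ J * x₂ ^ J * p) * (q₂ * u₂ ^ J) := by ring
      _ ≤ Real.exp N ^ J * (y₁ ^ J * x₂ ^ J * p) * (q₁ * u₁ ^ J) := by gcongr
      _ = _ := by ring

theorem fact_le_exp (n : ℕ) : (n ! : ℝ) ≤ Real.exp (n * Real.log n) := by
  rcases n.eq_zero_or_pos with rfl | hn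
  · simp
  · rw [Real.exp_nat_mul, Real.exp_log (by exact_mod_cast hn)]
    exact_mod_cast Nat.factorial_le_pow n

theorem detA (h : DetJStmt) : DetAStmt := by
  intro P κ ι τ _ _ _ S G pt E d H g₀ f J hG hpt hd hH hE hg₀ hne hJ hf hC
  set N := Fintype.card κ with hN
  have hH0 : 0 < H := one_pos.trans_le hH
  have hd0 : (0 : ℝ) < d := by exact_mod_cast hd
  have hB : 0 < S.B := one_pos.trans_le S.hB
  have hfp : (1 : ℝ) ≤ N ! := by exact_mod_cast Nat.factorial_pos N
  obtain ⟨g, hg, hl⟩ := liouville_sub hG (Sz.det (M := of fun k l => g₀ l (E k))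
    fun k l => (hE k).map (g₀ l)) hne (pow_pos hd _)
    (one_le_mul_of_one_le_of_one_le hfp (one_le_pow₀ hH))
  refine ⟨g, hg, h P κ ι τ S (fun l => pt (g * g₀ l)) f J _
    (fun l => (hpt _ (G.mul_mem hg (hg₀ l))).1) (by positivity) (hl.trans_eq ?_) hJ hf ?_⟩
  · have := ((algebraMap Qb ℂ).comp (g : Qb →+* Qb)).map_det (of fun k l => g₀ l (E k))
    change ‖((algebraMap Qb ℂ).comp (g : Qb →+* Qb)) _‖ = _
    rw [this]
    congr 2
    ext k l
    exact ((hpt _ (G.mul_mem hg (hg₀ l))).2 k).symm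
  · rw [← hN, inv_mul_eq_div, le_div_iff₀ (by positivity)]
    have e1 := fact_le_exp (2 * N)
    have e2 := fact_le_exp N
    calc (((2 * N)! : ℝ) * S.B ^ N) ^ 2 * (((d ^ N : ℕ) : ℝ) * (N ! * H ^ N)) ^ G.index
        ≤ (Real.exp (((2 * N : ℕ) : ℝ) * Real.log ((2 * N : ℕ) : ℝ)) * S.B ^ N) ^ 2 *
          (((d ^ N : ℕ) : ℝ) * (Real.exp (N * Real.log N) * H ^ N)) ^ G.index := by gcongr
      _ = Real.exp (N * (4 * Real.log (2 * N) + 2 * Real.log S.B +
          G.index * (Real.log d + Real.log H + Real.log N))) := by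
          rw [Nat.cast_pow, ← Real.exp_log hB, ← Real.exp_log hH0, ← Real.exp_log hd0]
          simp only [Real.log_exp, ← Real.exp_nat_mul, ← Real.exp_add]
          congr 1
          push_cast
          ring
      _ ≤ Real.exp (J * N) := by
          rw [mul_comm (J : ℝ)]
          exact Real.exp_le_exp.2 (mul_le_mul_of_nonneg_left hC (Nat.cast_nonneg _))

end Pool.Agent.MP_09973c_nt.H76
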